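import Pool.Agent.Helper7.PX.Goals2

/-! # Packet PX-FC2: one rich block without close pairs

The elementary lemmas and the common part of the argument are as in Pool/Agent/Helper85/PX/FA.lean
(helper85). -/

set_option autoImplicit false

open Finset Filter Topology

open scoped Classical

namespace Pool.Agent.Helper98.PX

open Pool.Agent.Helper88.PP (QQ)
open Pool.Agent.Helper88.GM (NI XI)
open Pool.Agent.Helper7.PX (np np2 npc Wd StmtCB StmtFC2)

private theorem mul_pred_nonneg (N : ℕ) : 0 ≤ (N : ℝ) * (N - 1) := by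
  rcases Nat.eq_zero_or_pos N with h | h
  · subst h
    simp
  · have h1 : (1 : ℝ) ≤ N := by exact_mod_cast h
    exact mul_nonneg (by linarith) (by linarith)

private theorem ind_ge (N k : ℕ) (A : ℝ) (hA : 1 ≤ A) :
    ((N : ℝ) - k - N * (N - 1) / A) / A ≤ if k ≤ N then 1 else 0 := by
  have hA0 : 0 < A := by linarith
  have hN := mul_pred_nonneg N
  split_ifs with h
  · rw [div_le_one hA0]
    have h1 : (0 : ℝ) ≤ k := Nat.cast_nonneg k
    have h2 : (N : ℝ) - A ≤ N * (N - 1) / A := by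
      rw [le_div_iff₀ hA0]
      have h3 : 0 ≤ (A - 1) * (3 * A + 1) := mul_nonneg (by linarith) (by linarith)
      have h4 := sq_nonneg ((N : ℝ) - (A + 1) / 2)
      have h5 : (N : ℝ) * (N - 1) - (N - A) * A =
        ((N : ℝ) - (A + 1) / 2) ^ 2 + (A - 1) * (3 * A + 1) / 4 := by ring
      linarith
    linarith
  · apply div_nonpos_of_nonpos_of_nonneg _ hA0.le
    have h1 : (N : ℝ) ≤ k := by exact_mod_cast (not_le.1 h).le
    have h2 : 0 ≤ (N : ℝ) * (N - 1) / A := div_nonneg hN hA0.le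
    linarith

private theorem np2_self (n h l : ℕ) : (np2 n h h l : ℝ) = (np n h l : ℝ) * ((np n h l : ℝ) - 1) := by
  have h1 : ((Ioc h (h + l)) ×ˢ (Ioc h (h + l))).filter
      (fun p => p.1 ≠ p.2 ∧ (n + p.1).Prime ∧ (n + p.2).Prime) =
      ((Ioc h (h + l)).filter (fun j => (n + j).Prime)).offDiag := by
    ext p
    simp only [mem_filter, mem_product, mem_offDiag]
    tauto
  rw [np2, h1, Finset.offDiag_card, ← np]
  rw [Nat.cast_sub (Nat.le_mul_self _)]
  push_cast
  ring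

/-- one block: the weighted proportion of the `n` with at least `k` primes in the block -/
private theorem one_block (S : Finset ℕ) (w : ℕ → ℝ) (N : ℕ → ℕ) (k : ℕ) (c1 C1 R D η : ℝ)
    (hw : ∀ n, 0 ≤ w n) (hc1 : 0 < c1) (hc11 : c1 ≤ 1) (hC1 : 1 ≤ C1) (hR : R = 8 * k / c1)
    (hR8 : 8 ≤ R) (hD : 0 < D) (hη : η ≤ 1)
    (h1 : ∑ n ∈ S, w n ≤ (1 + η) * D) (h2 : c1 * R * D ≤ ∑ n ∈ S, w n * (N n : ℝ))
    (h3 : ∑ n ∈ S, w n * ((N n : ℝ) * ((N n : ℝ) - 1)) ≤ C1 * R ^ 2 * D) :
    c1 ^ 2 / (64 * C1) * D ≤ ∑ n ∈ S, w n * (if k ≤ N n then (1 : ℝ) else 0) := by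
  have hR0 : 0 < R := by linarith
  have hC0 : 0 < C1 := by linarith
  set A : ℝ := 8 * C1 * R / c1 with hA
  have hcR : c1 * R = 8 * k := by
    rw [hR]
    field_simp
  have hA0 : 0 < A := by positivity
  have hA1 : 1 ≤ A := by
    rw [hA, le_div_iff₀ hc1, one_mul]
    have h4 : 1 * 8 ≤ C1 * R := mul_le_mul hC1 hR8 (by norm_num) (by linarith)
    linarith
  have hk0 : (0 : ℝ) ≤ k := Nat.cast_nonneg k
  have h5 : ∑ n ∈ S, w n * (((N n : ℝ) - k - N n * (N n - 1) / A) / A) ≤
      ∑ n ∈ S, w n * (if k ≤ N n then (1 : ℝ) else 0) :=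
    Finset.sum_le_sum fun n _ => mul_le_mul_of_nonneg_left (ind_ge (N n) k A hA1) (hw n)
  have h6 : ∑ n ∈ S, w n * (((N n : ℝ) - k - N n * (N n - 1) / A) / A) =
      (∑ n ∈ S, w n * (N n : ℝ) - k * ∑ n ∈ S, w n -
        (∑ n ∈ S, w n * ((N n : ℝ) * ((N n : ℝ) - 1))) / A) / A := by
    rw [Finset.mul_sum, Finset.sum_div, ← Finset.sum_sub_distrib, ← Finset.sum_sub_distrib,
      Finset.sum_div]
    refine Finset.sum_congr rfl fun n _ => ?_
    ring
  refine le_trans ?_ h5
  rw [h6, le_div_iff₀ hA0]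
  have h7 : (k : ℝ) * ∑ n ∈ S, w n ≤ k * (2 * D) := by
    refine mul_le_mul_of_nonneg_left (h1.trans ?_) hk0
    exact mul_le_mul_of_nonneg_right (by linarith) hD.le
  have h8 : (∑ n ∈ S, w n * ((N n : ℝ) * ((N n : ℝ) - 1))) / A ≤ c1 * R / 8 * D := by
    rw [div_le_iff₀ hA0]
    refine h3.trans (le_of_eq ?_)
    rw [hA]
    field_simp
  have h9 : c1 ^ 2 / (64 * C1) * D * A = c1 * R / 8 * D := by
    rw [hA]
    field_simp
    ring
  rw [h9]
  have h10 : (k : ℝ) * (2 * D) = c1 * R / 4 * D := by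
    rw [hcR]
    ring
  have h11 : 0 ≤ c1 * R * D := by positivity
  linarith

private theorem np_mono (n h : ℕ) {l L : ℕ} (hl : l ≤ L) : np n h l ≤ np n h L :=
  card_le_card (filter_subset_filter _ (Ioc_subset_Ioc_right (by omega)))

private theorem log_log_small (e : ℝ) (he : 0 < e) (he1 : e ≤ 1 / 2) : ∃ x2 : ℕ, ∀ x : ℕ, x2 ≤ x →
    1 ≤ e * Real.log x ∧ Real.log (Real.log x) ≤ e * Real.log x := by
  obtain ⟨x2, hx2⟩ := exists_nat_ge (Real.exp ((2 / e) ^ 2))
  refine ⟨x2, fun x hx => ?_⟩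
  have h1 : Real.exp ((2 / e) ^ 2) ≤ x := hx2.trans (by exact_mod_cast hx)
  have h2 : (2 / e) ^ 2 ≤ Real.log x := by
    rw [Real.le_log_iff_exp_le (lt_of_lt_of_le (Real.exp_pos _) h1)]
    exact h1
  set U := Real.log x with hU
  have h3 : 4 ≤ 2 / e := by
    rw [le_div_iff₀ he]
    linarith
  have hU0 : 0 < U := lt_of_lt_of_le (by positivity) h2
  have h4 : 2 / e ≤ Real.sqrt U := Real.le_sqrt_of_sq_le h2
  have h5 : Real.sqrt U * Real.sqrt U = U := Real.mul_self_sqrt hU0.le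
  have h6 : 2 * Real.sqrt U ≤ e * U := by
    have h7 : 2 ≤ e * Real.sqrt U := by
      have h8 := mul_le_mul_of_nonneg_left h4 he.le
      have h9 : e * (2 / e) = 2 := by field_simp
      linarith
    calc 2 * Real.sqrt U ≤ e * Real.sqrt U * Real.sqrt U :=
          mul_le_mul_of_nonneg_right h7 (Real.sqrt_nonneg _)
      _ = e * U := by rw [mul_assoc, h5]
  have h7 : Real.log U ≤ 2 * Real.sqrt U := by
    have h8 : Real.log (Real.sqrt U) ≤ Real.sqrt U - 1 :=
      Real.log_le_sub_one_of_pos (Real.sqrt_pos.2 hU0)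
    have h9 : Real.log U = 2 * Real.log (Real.sqrt U) := by
      rw [Real.log_sqrt hU0.le]
      ring
    linarith
  exact ⟨by linarith, by linarith⟩

theorem fc2 (hCB : StmtCB) : StmtFC2 := by
  obtain ⟨κ, c1, C1, c, C', hκ, hκ1, hc1, hc11, hC1, hc, hC', hCB⟩ := hCB
  set c2 : ℝ := c1 ^ 2 / (64 * C1) with hc2
  have hC10 : 0 < C1 := by linarith
  have hc2p : 0 < c2 := by positivity
  refine ⟨c, 2 * C', hc, by positivity, ?_⟩
  intro k ε hε hε1
  have hk' : (1 : ℝ) ≤ ((k + 1 : ℕ) : ℝ) := by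
    have h1 : 1 ≤ k + 1 := by omega
    exact_mod_cast h1
  set R : ℝ := 8 * ((k + 1 : ℕ) : ℝ) / c1 with hR
  have hR8 : 8 ≤ R := by
    rw [hR, le_div_iff₀ hc1]
    linarith
  set e : ℝ := ε / 2 with he
  have he0 : 0 < e := by positivity
  have he1 : e ≤ 1 / 2 := by linarith
  set t : ℝ := Real.sqrt (R / e) - 1 with ht
  have hRe : 4 ≤ R / e := by
    rw [le_div_iff₀ he0]
    linarith
  have ht2 : (1 + t) ^ 2 * e = R := by
    have h1 : 1 + t = Real.sqrt (R / e) := by
      rw [ht]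
      ring
    rw [h1, Real.sq_sqrt (by linarith)]
    field_simp
  have ht1 : 1 ≤ t := by
    have h1 : (2 : ℝ) ≤ Real.sqrt (R / e) := Real.le_sqrt_of_sq_le (by linarith)
    rw [ht]
    linarith
  set η : ℝ := min (1 / 4) (c2 / 4) with hη
  have hη0 : 0 < η := lt_min (by norm_num) (by positivity)
  have hη1 : η ≤ 1 / 4 := min_le_left _ _
  have hη2 : η ≤ c2 / 4 := min_le_right _ _
  -- the minimal distance
  set B : ℝ := C1 * (1 + t) ^ 4 * e with hB
  have hB0 : 0 < B := by
    have h1 : (0 : ℝ) < 1 + t := by linarith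
    positivity
  set δ : ℝ := min e (c2 / 2 / B) with hδ
  have hδ0 : 0 < δ := lt_min he0 (by positivity)
  have hδe : δ ≤ e := min_le_left _ _
  have hδB : B * δ ≤ c2 / 2 := by
    have h1 : δ ≤ c2 / 2 / B := min_le_right _ _
    rw [le_div_iff₀ hB0] at h1
    linarith
  obtain ⟨lam1, x1, hx1⟩ := hCB t η e 1 ht1 hη0 he0 he1
  obtain ⟨x2, hx2⟩ := log_log_small (δ / 2) (by positivity) (by linarith)
  refine ⟨δ, max lam1 (Real.log (2 / κ) / C'), max x1 x2, hδ0, fun x hx lam hlam hlamc h0 hh0 => ?_⟩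
  have hlam1 : lam1 ≤ lam := (le_max_left _ _).trans hlam
  have hlam2 : Real.log (2 / κ) ≤ C' * lam := by
    have h1 := (le_max_right _ _).trans hlam
    rw [div_le_iff₀ hC'] at h1
    linarith
  obtain ⟨hlx1, hlx2⟩ := hx2 x ((le_max_right _ _).trans hx)
  have hU0 : 0 < Real.log x := by
    by_contra hcon
    have h1 : δ / 2 * Real.log x ≤ 0 :=
      mul_nonpos_of_nonneg_of_nonpos (by positivity) (not_lt.1 hcon)
    linarith
  have hdU : δ * Real.log x ≤ e * Real.log x := mul_le_mul_of_nonneg_right hδe hU0.le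
  set l : ℕ := ⌈e * Real.log x⌉₊ with hl
  set d : ℕ := ⌊δ * Real.log x⌋₊ with hd
  have hl1 : e * Real.log x ≤ l := Nat.le_ceil _
  have hl2 : (l : ℝ) ≤ ε * Real.log x := by
    have h1 : (l : ℝ) < e * Real.log x + 1 := Nat.ceil_lt_add_one (by linarith)
    have h2 : ε * Real.log x = 2 * (e * Real.log x) := by
      rw [he]
      ring
    linarith
  set L : ℕ := ⌊ε * Real.log x⌋₊ with hL
  have hlL : l ≤ L := Nat.le_floor hl2
  have hd1 : (d : ℝ) ≤ δ * Real.log x := Nat.floor_le (by positivity)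
  have hd3 : δ * Real.log x < d + 1 := Nat.lt_floor_add_one _
  have hd4 : Real.log (Real.log x) ≤ d := by linarith
  have hd2 : d ≤ l := by
    have h1 : (d : ℝ) ≤ l := by linarith
    exact_mod_cast h1
  obtain ⟨BB, hBBs, hBBc, hBB⟩ := hx1 x ((le_max_left _ _).trans hx) lam hlam1 hlamc {h0} l d
    (singleton_nonempty _) (by rw [card_singleton]) hl1 (by
      have h2 : 2 * e * Real.log x = ε * Real.log x := by
        rw [he]
        ring
      rw [h2]
      exact hl2) hd4 hd2 (fun h hh => by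
        rw [mem_singleton.1 hh]
        linarith) (fun h hh h' hh' hlt => by
        rw [mem_singleton.1 hh, mem_singleton.1 hh'] at hlt
        exact absurd hlt (lt_irrefl _))
  set G : Finset ℕ := (Ioc (x / 32) x).filter (fun n => Wd x n lam {h0} L ∧ k + 1 ≤ np n h0 L ∧
    ∀ i j : ℕ, 1 ≤ i → i < j → (j : ℝ) ≤ lam * Real.log x → (n + i).Prime → (n + j).Prime →
      δ * Real.log x ≤ (j : ℝ) - i) with hG
  -- one class
  have hone : ∀ b ∈ BB, Real.exp (-Real.exp (C' * lam)) * XI (x / 32) x (QQ x) ≤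
      ((G.filter (fun n => n % QQ x = b)).card : ℝ) := by
    intro b hb
    obtain ⟨H', w, D, hH's, hH'c, hD, hw, h1, h2, h3, h4, h5⟩ := hBB b hb
    rw [card_singleton, Nat.cast_one, mul_one] at hH'c
    have hH'ne : H'.Nonempty := by
      rw [← card_pos]
      have h6 : (0 : ℝ) < H'.card := lt_of_lt_of_le hκ hH'c
      exact_mod_cast h6
    have hH' : H' = {h0} := (subset_singleton_iff.1 hH's).resolve_left hH'ne.ne_empty
    subst hH'
    have hmem : h0 ∈ ({h0} : Finset ℕ) := mem_singleton_self _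
    have hblock : c2 * D ≤ ∑ n ∈ NI (x / 32) x (QQ x) b,
        w n * (if k + 1 ≤ np n h0 l then (1 : ℝ) else 0) := by
      refine one_block _ w (fun n => np n h0 l) (k + 1) c1 C1 R D η hw hc1 hc11 hC1 hR hR8 hD
        (by linarith) h1 ?_ ?_
      · have h6 := h2 h0 hmem
        rwa [ht2] at h6
      · have h6 := h3 h0 hmem h0 hmem
        rw [ht2] at h6
        refine le_trans (le_of_eq ?_) h6
        refine Finset.sum_congr rfl fun n _ => ?_
        rw [np2_self]
    set Φ : ℕ → ℝ := fun n => (if k + 1 ≤ np n h0 l then (1 : ℝ) else 0) - (npc n h0 l d : ℝ) with hΦ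
    have hI1 : ∀ n, (if k + 1 ≤ np n h0 l then (1 : ℝ) else 0) ≤ 1 := fun n => by
      split_ifs <;> norm_num
    have hΦ1 : ∀ n, Φ n ≤ 1 := by
      intro n
      have h6 : (0 : ℝ) ≤ (npc n h0 l d : ℝ) := Nat.cast_nonneg _
      have h7 := hI1 n
      simp only [hΦ]
      linarith
    have hclose : ∑ n ∈ NI (x / 32) x (QQ x) b, w n * (npc n h0 l d : ℝ) ≤ c2 / 2 * D := by
      rw [sum_singleton, card_singleton, Nat.cast_one, one_mul] at h4
      refine h4.trans (mul_le_mul_of_nonneg_right ?_ hD.le)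
      have h6 : (d : ℝ) / Real.log x ≤ δ := by
        rw [div_le_iff₀ hU0]
        exact hd1
      calc C1 * (1 + t) ^ 4 * (e * (d / Real.log x)) = B * (d / Real.log x) := by
            rw [hB]
            ring
        _ ≤ B * δ := mul_le_mul_of_nonneg_left h6 hB0.le
        _ ≤ c2 / 2 := hδB
    have hsum : η * D ≤ ∑ n ∈ NI (x / 32) x (QQ x) b, w n * Φ n := by
      have h6 : ∑ n ∈ NI (x / 32) x (QQ x) b, w n * Φ n =
          ∑ n ∈ NI (x / 32) x (QQ x) b, w n * (if k + 1 ≤ np n h0 l then (1 : ℝ) else 0) -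
            ∑ n ∈ NI (x / 32) x (QQ x) b, w n * (npc n h0 l d : ℝ) := by
        rw [← Finset.sum_sub_distrib]
        refine Finset.sum_congr rfl fun n _ => ?_
        simp only [hΦ]
        ring
      have h10 : η * D ≤ c2 / 4 * D := mul_le_mul_of_nonneg_right hη2 hD.le
      have h11 : 0 < c2 * D := by positivity
      rw [h6]
      linarith
    refine (h5 Φ hΦ1 hsum).trans ?_
    norm_cast
    refine card_le_card fun n hn => ?_
    obtain ⟨hn1, hn2, hn3⟩ := mem_filter.1 hn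
    obtain ⟨hn4, hn5⟩ := mem_filter.1 hn1
    have hin : ∀ j : ℕ, 1 ≤ j → (j : ℝ) ≤ lam * Real.log x → (n + j).Prime →
        j ∈ Ioc h0 (h0 + l) := by
      intro j hj1 hj2 hp
      obtain ⟨h, hh, hjh⟩ := hn3 j (mem_Icc.2 ⟨hj1, Nat.le_floor hj2⟩) hp
      rw [mem_singleton.1 hh] at hjh
      exact hjh
    refine mem_filter.2 ⟨mem_filter.2 ⟨hn4, ?_, ?_, ?_⟩, hn5⟩
    · intro j hj hp
      obtain ⟨h, hh, hjh⟩ := hn3 j hj hp
      exact ⟨h, hh, Ioc_subset_Ioc_right (by omega) hjh⟩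
    · refine le_trans ?_ (np_mono n h0 hlL)
      by_contra hcon
      simp only [hΦ, if_neg hcon] at hn2
      have h6 : (0 : ℝ) ≤ (npc n h0 l d : ℝ) := Nat.cast_nonneg _
      linarith
    · intro i j hi hij hj hpi hpj
      by_contra hcon
      have hij' : (i : ℝ) < j := by exact_mod_cast hij
      have h6 : (j : ℝ) < i + (d + 1 : ℕ) := by
        push_cast
        linarith [not_le.1 hcon]
      have h7 : j < i + (d + 1) := by exact_mod_cast h6
      have h8 : 0 < npc n h0 l d := by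
        rw [npc, card_pos]
        refine ⟨(i, j), mem_filter.2 ⟨mem_product.2 ⟨hin i hi (by linarith) hpi,
          hin j (by omega) hj hpj⟩, hij, ?_, hpi, hpj⟩⟩
        change j ≤ i + d
        omega
      have h9 : (1 : ℝ) ≤ (npc n h0 l d : ℝ) := by exact_mod_cast h8
      have h10 := hI1 n
      simp only [hΦ] at hn2
      linarith
  -- the sum over the classes
  have hsumb : ∑ b ∈ BB, ((G.filter (fun n => n % QQ x = b)).card : ℝ) ≤ G.card := by
    rw [← Nat.cast_sum, ← Finset.card_biUnion]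
    · exact_mod_cast card_le_card (Finset.biUnion_subset.2 fun b _ => filter_subset _ _)
    · intro b _ b' _ hbb
      rw [Function.onFun, Finset.disjoint_left]
      intro n hn hn'
      exact hbb ((mem_filter.1 hn).2.symm.trans (mem_filter.1 hn').2)
  have hQ : (0 : ℝ) < QQ x := by
    have h1 : 0 < QQ x := primorial_pos _
    exact_mod_cast h1
  have hX : (x : ℝ) / 2 ≤ ((x - x / 32 : ℕ) : ℝ) := by
    have h1 : x ≤ 2 * (x - x / 32) := by omega
    have h2 : (x : ℝ) ≤ 2 * ((x - x / 32 : ℕ) : ℝ) := by exact_mod_cast h1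
    linarith
  have hfin : κ / 2 * x * Real.exp (-Real.exp (C' * lam)) ≤ (G.card : ℝ) := by
    refine le_trans ?_ hsumb
    calc κ / 2 * x * Real.exp (-Real.exp (C' * lam))
        = κ * (x / 2) * Real.exp (-Real.exp (C' * lam)) := by ring
      _ ≤ κ * ((x - x / 32 : ℕ) : ℝ) * Real.exp (-Real.exp (C' * lam)) :=
          mul_le_mul_of_nonneg_right (mul_le_mul_of_nonneg_left hX hκ.le) (Real.exp_pos _).le
      _ = κ * QQ x * (Real.exp (-Real.exp (C' * lam)) * XI (x / 32) x (QQ x)) := by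
          rw [XI]
          field_simp
      _ ≤ BB.card * (Real.exp (-Real.exp (C' * lam)) * XI (x / 32) x (QQ x)) := by
          refine mul_le_mul_of_nonneg_right hBBc ?_
          rw [XI]
          positivity
      _ = ∑ _b ∈ BB, Real.exp (-Real.exp (C' * lam)) * XI (x / 32) x (QQ x) := by
          rw [Finset.sum_const, nsmul_eq_mul]
      _ ≤ _ := Finset.sum_le_sum hone
  refine le_trans ?_ hfin
  set u : ℝ := Real.exp (C' * lam) with hu
  have hu2 : Real.exp (2 * C' * lam) = u * u := by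
    rw [hu, ← Real.exp_add]
    congr 1
    ring
  have hlog0 : 0 ≤ Real.log (2 / κ) := by
    apply Real.log_nonneg
    rw [le_div_iff₀ hκ]
    linarith
  have hu1 : 1 + Real.log (2 / κ) ≤ u := by
    have h1 := Real.add_one_le_exp (C' * lam)
    linarith
  have hu3 : u + Real.log (2 / κ) ≤ u * u := by
    have h1 : (u - 1) * 1 ≤ (u - 1) * u := mul_le_mul_of_nonneg_left (by linarith) (by linarith)
    linarith
  rw [hu2]
  have h1 : Real.exp (-(u * u)) ≤ κ / 2 * Real.exp (-u) := by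
    calc Real.exp (-(u * u)) ≤ Real.exp (-Real.log (2 / κ) + -u) := Real.exp_le_exp.2 (by linarith)
      _ = κ / 2 * Real.exp (-u) := by
        rw [Real.exp_add, Real.exp_neg (Real.log (2 / κ)), Real.exp_log (by positivity), inv_div]
  calc (x : ℝ) * Real.exp (-(u * u)) ≤ x * (κ / 2 * Real.exp (-u)) :=
        mul_le_mul_of_nonneg_left h1 (Nat.cast_nonneg _)
    _ = κ / 2 * x * Real.exp (-u) := by ring

end Pool.Agent.Helper98.PX
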